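import Mathlib
import Pool.Agent.N679.RG.All7
import Pool.Agent.N679.RG.FinB

/-!
# Primes `q` with `(a + q d) / r` prime, with clusters of primes around both, with the right order of magnitude, for 5 / 9
of the admissible `a` in every window of length `λ log x`, or almost all multiples of a bounded number are differences of
primes

Let `r`, `d` be coprime, `r ≠ d` (the question: `r = 1`; here `d ≥ 2`). For every `k ≥ 0` and `ε > 0` there are `Q` and
`c, δ > 0` such that for every `λ > 0` there is a `κ > 0`: for all large `x` and all `T`, `λ log x ≤ T ≤ x / (10 ^ 5 r)`, at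
least one of the following two statements holds.

* In EVERY interval `(u, u + T]` with `100 r |u| ≤ x` at least the proportion `5 / 9 - ε` of the integers `a` satisfying
  the local condition is such that for at least `δ T ^ (2 k)` pairs of vectors `h, h'` of `k` different nonzero integers of
  `[-T, T]` there are at least `κ x / (log x) ^ (2 k + 2)` primes `q ≤ x` for which `p = (a + q d) / r` is a prime and all
  `q + h i`, `p + h' i` are prime.
* For some `m ≤ Q` and some `X` with `c T ≤ X ≤ T` all but at most `ε X / m` of the multiples `e ≤ X` of `m` are such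
  that for at least `δ T ^ (2 k)` vectors `g` of `2 k` different integers of `[-T, T]`, different from `0` and `e`, there
  are at least `κ x / (log x) ^ (2 k + 2)` primes `p ≤ (r + d) x` for which `p + e` and all `p + g i` are prime.
-/

set_option autoImplicit false

namespace Pool.Agent.Results.MP_8bf9c2_nt.ClusteredSolutions

open Finset Filter

/-- the local condition for `r p = a + q d` (`r`, `d` coprime); for `r = 1` this is the condition of the question -/
def Admissible (r d : ℕ) (a : ℤ) : Prop :=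
  IsCoprime a (r : ℤ) ∧ IsCoprime a (d : ℤ) ∧ Even ((r : ℤ) * d * a)

/-- the vectors of `k` different nonzero integers in `[-T, T]` -/
noncomputable def vectors (k T : ℕ) : Finset (Fin k → ℤ) :=
  (Fintype.piFinset (fun _ : Fin k => Icc (-(T : ℤ)) T)).filter (fun h => Function.Injective h ∧ ∀ i, h i ≠ 0)

open Classical in
/-- the number of the primes `q ≤ x` for which there is a prime `p` with `r p - d q = a` such that all `q + h i` and all
`p + h' i` are prime (`r = 1`: `p = a + q d`) -/
noncomputable def solutions {k : ℕ} (r d : ℕ) (a : ℤ) (x : ℕ) (h h' : Fin k → ℤ) : ℕ :=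
  ((Icc 1 x).filter (fun q : ℕ => q.Prime ∧ (∀ i, ((q : ℤ) + h i).toNat.Prime) ∧
    ∃ p : ℕ, p.Prime ∧ (r : ℤ) * p - d * q = a ∧ ∀ i, ((p : ℤ) + h' i).toNat.Prime)).card

/-- the number of the primes `p ≤ x` such that `p + e` and all `p + g i` are prime -/
def primePairs {k : ℕ} (x e : ℕ) (g : Fin k → ℤ) : ℕ :=
  ((Icc 1 x).filter (fun p : ℕ => p.Prime ∧ (p + e).Prime ∧ ∀ i, ((p : ℤ) + g i).toNat.Prime)).card

open Classical in
/-- the right number of solutions of `r p - d q = a`, with clusters around `q` and around `p` -/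
def Solvable (k : ℕ) (δ κ : ℝ) (T x r d : ℕ) (a : ℤ) : Prop :=
  δ * (T : ℝ) ^ (2 * k) ≤ (((vectors k T ×ˢ vectors k T).filter (fun v =>
    κ * (x / (Real.log x) ^ (2 * k + 2)) ≤ (solutions r d a x v.1 v.2 : ℝ))).card : ℝ)

open Classical in
/-- `e` is the difference of the right number of pairs of primes `p ≤ y`, `p + e`, with clusters -/
def PairDistance (k : ℕ) (δ κ : ℝ) (T x y e : ℕ) : Prop :=
  δ * (T : ℝ) ^ (2 * k) ≤ (((vectors (2 * k) T).filter (fun g => (∀ i, g i ≠ (e : ℤ)) ∧
    κ * (x / (Real.log x) ^ (2 * k + 2)) ≤ (primePairs y e g : ℝ))).card : ℝ)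

open Classical in
theorem result : ∀ r d : ℕ, 1 ≤ r → 1 ≤ d → Nat.Coprime r d → r ≠ d →
    ∀ (k : ℕ) (ε : ℝ), 0 < ε → ∃ (Q : ℕ) (c δ : ℝ), 0 < c ∧ 0 < δ ∧
    ∀ lam : ℝ, 0 < lam → ∃ κ : ℝ, 0 < κ ∧ ∀ᶠ x : ℕ in atTop, ∀ T : ℕ, lam * Real.log x ≤ T →
      100000 * (r * T) ≤ x →
      (∀ u : ℤ, 100 * (r * |u|) ≤ x →
        (5 / 9 - ε) * (((Ioc u (u + T)).filter (fun a : ℤ => Admissible r d a)).card : ℝ) ≤
          (((Ioc u (u + T)).filter (fun a : ℤ => Admissible r d a ∧ Solvable k δ κ T x r d a)).card : ℝ)) ∨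
      ∃ m X : ℕ, 1 ≤ m ∧ m ≤ Q ∧ c * T ≤ (X : ℝ) ∧ X ≤ T ∧
        (((Icc 1 X).filter (fun e => m ∣ e ∧ ¬ PairDistance k δ κ T x ((r + d) * x) e)).card : ℝ) ≤
          ε * (X / m) :=
  Pool.Agent.N679.RG.conclL Pool.Agent.N679.RG.finl

end Pool.Agent.Results.MP_8bf9c2_nt.ClusteredSolutions
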