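import Pool.Agent.N699.ST.Tra
import Pool.Agent.N625.PT.C
import Pool.Agent.N625.DY.G

/-!
# Primes `q` for which all `d_i q + a_i` are primes: random constants with exchangeable blocks of digits, all small slopes

For random vectors `(a_1, ..., a_s)` of integers whose blocks of digits can be exchanged, the formula of Hardy and
Littlewood holds with a probability of at least `1 - 1 / log ^ U N` for the number of the primes `q` for which all the numbers
`d_i q + a_i` are primes, for ALL the slopes `d_i ≤ log ^ A N` at the same time. For `s = 1` this is the number of the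
primes `q` with `a + q d` prime; the pair `(a, d)` is admissible in this case if and only if `gcd (a, d) = 1` and `2 ∣ a d`.

Method: the exponential sum over the ends of a word is bounded by the potential of its beginning times a power of a
number `< 1`; the exponent is the number of the places where the frequency has a digit which is not extremal
(`Pool.Agent.N625.PT`). For one random constant the sum of `G n * (Λ - λ_z) (n + a)` over `n ≤ N` is then small on average
for ARBITRARY coefficients `G` (`Pool.Agent.N469.PT` and the starting files); with coefficients supported on the multiples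
of `d` this replaces the von Mangoldt function by the sieve model along the progression `d q + a`, uniformly in `d`. The
main term is evaluated uniformly in the slopes in `Pool.Agent.N699.ST` (after `Pool.Agent.Y820.LF`, starting files).
-/

set_option autoImplicit false

namespace Pool.Agent.Results.MP_8bf9c2_nt.ExchangeableBlocks

open Finset

/-- For every prime `p` there is an `r` such that `p` divides neither `r` nor any `d i * r + a i`. -/
def Admissible {s : ℕ} (d a : Fin s → ℕ) : Prop := ∀ p : ℕ, p.Prime → ∃ r : ℕ, ¬ p ∣ r ∧ ∀ i, ¬ p ∣ d i * r + a i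

/-- The number of the residues `r < p` for which `p` divides `r * ∏ i, (d i * r + a i)`. -/
def nu {s : ℕ} (d a : Fin s → ℕ) (p : ℕ) : ℕ := ((range p).filter fun r => p ∣ r * ∏ i, (d i * r + a i)).card

/-- The partial product over the primes `p ≤ z` of the singular series. -/
noncomputable def sing {s : ℕ} (d a : Fin s → ℕ) (z : ℕ) : ℝ :=
  ∏ p ∈ (Icc 1 z).filter Nat.Prime, (1 - (nu d a p : ℝ) / p) / (1 - 1 / (p : ℝ)) ^ (s + 1)

/-- The number of the primes `q ≤ x` for which all `d i * q + a i` are primes. -/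
def count {s : ℕ} (d a : Fin s → ℕ) (x : ℕ) : ℕ := ((Icc 1 x).filter fun q => q.Prime ∧ ∀ i, (d i * q + a i).Prime).card

/-- The formula of Hardy and Littlewood for the primes `q ≤ x` with all `d i * q + a i` prime, where `log N` is the
approximate size of the logarithms of the primes: the singular series converges to some `S > 0`, the number of the
solutions weighted with the von Mangoldt function is `S x`, with an error of at most `x / log ^ U N`, and the number of
the solutions is `S x / log ^ (s + 1) N`, with a relative error of at most `ε`. -/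
def Formula {s : ℕ} (ε : ℝ) (U N x : ℕ) (d a : Fin s → ℕ) : Prop :=
  ∃ S : ℝ, 0 < S ∧ Filter.Tendsto (sing d a) Filter.atTop (nhds S) ∧
    |∑ n ∈ Icc 1 x, ArithmeticFunction.vonMangoldt n * ∏ i, ArithmeticFunction.vonMangoldt (d i * n + a i) - S * x| ≤
      x / Real.log N ^ U ∧
    |(count d a x : ℝ) - S * (x / Real.log N ^ (s + 1))| ≤ ε * (S * (x / Real.log N ^ (s + 1)))

/-- The formula holds for the constants `a`, for all `j ≤ log ^ A N`, for ALL admissible slopes `d i ≤ j`, and for the
primes `q ≤ N / j`. -/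
def AllSlopes {s : ℕ} (ε : ℝ) (A U N : ℕ) (a : Fin s → ℕ) : Prop :=
  ∀ (j : ℕ) (d : Fin s → ℕ), (j : ℝ) ≤ Real.log N ^ A → (∀ i, 1 ≤ d i ∧ d i ≤ j) → Admissible d a →
    Formula ε U N (N / j) d a

/-- The probability, for the distribution `μ` on the words of `k` digits (the integers `v < b ^ k`), that the word begins with
the `i` digits of `u < b ^ i`. -/
noncomputable def begins (b k : ℕ) (μ : ℕ → ℝ) (i u : ℕ) : ℝ := ∑ w ∈ range (b ^ (k - i)), μ (u * b ^ (k - i) + w)

/-- `p` is a probability on the words of `k` digits in base `b`, read as integers `v < b ^ k`. There is another probability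
`μ` with `p ≤ k ^ T μ` such that after every beginning `u` two different blocks `a`, `a'` of `L` digits can be exchanged:
`p (u a w) = r p (u a' w)` for all endings `w`, with a factor `r` between `η` and `1 / η` which does not depend on `w`; and
given the beginning `u`, each of the two blocks comes next with a probability of at least `η` in the distribution `μ`.
(For `T = 0` one has `μ = p`. For the uniform distribution on a set of words `r` is `1`.) -/
structure Exchangeable (b L : ℕ) (η : ℝ) (T k : ℕ) (p : ℕ → ℝ) : Prop where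
  nonneg : ∀ v, 0 ≤ p v
  sum : ∑ v ∈ range (b ^ k), p v = 1
  dominated : ∃ μ : ℕ → ℝ, (∀ v, 0 ≤ μ v) ∧ ∑ v ∈ range (b ^ k), μ v = 1 ∧ (∀ v < b ^ k, p v ≤ (k : ℝ) ^ T * μ v) ∧
    ∀ i u : ℕ, i + L ≤ k → u < b ^ i → ∃ (a a' : ℕ) (r : ℝ), a < a' ∧ a' < b ^ L ∧ η ≤ r ∧ η * r ≤ 1 ∧
      (∀ w < b ^ (k - (i + L)), p ((b ^ L * u + a) * b ^ (k - (i + L)) + w) = r * p ((b ^ L * u + a') * b ^ (k - (i + L)) + w)) ∧
      η * begins b k μ i u ≤ begins b k μ (i + L) (b ^ L * u + a) ∧
      η * begins b k μ i u ≤ begins b k μ (i + L) (b ^ L * u + a')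

lemma begins_sum (b k : ℕ) (μ : ℕ → ℝ) (i u : ℕ) (hi : i < k) :
    ∑ a ∈ range b, begins b k μ (i + 1) (b * u + a) = begins b k μ i u := by
  unfold begins
  obtain ⟨n, hn⟩ : ∃ n, k - i = n + 1 := ⟨k - i - 1, by omega⟩
  have h1 : k - (i + 1) = n := by omega
  rw [h1, hn, pow_succ, mul_comm (b ^ n) b, Pool.Agent.N625.PT.sum_blocks b (b ^ n)]
  apply sum_congr rfl
  intro a _
  apply sum_congr rfl
  intro w _
  congr 1
  ring

lemma flex_of {b L T k : ℕ} {η : ℝ} {p : ℕ → ℝ} (hp : Exchangeable b L η T k p) : Pool.Agent.N625.PT.Flex b L η T k p := by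
  obtain ⟨h0, h1, μ, m0, m1, m2, m3⟩ := hp
  have hT : (0 : ℝ) ≤ (k : ℝ) ^ T := by positivity
  have hb0 : ∀ i u, 0 ≤ begins b k μ i u := fun i u => sum_nonneg fun w _ => m0 _
  refine ⟨h0, h1, fun i u => (k : ℝ) ^ T * begins b k μ i u, fun i u => mul_nonneg hT (hb0 i u), ?_, ?_, ?_, ?_⟩
  · intro v hv
    refine (m2 v hv).trans (le_of_eq ?_)
    unfold begins
    simp
  · intro i hi u _
    simp only
    rw [← mul_sum, begins_sum b k μ i u hi]
  · simp only
    have : begins b k μ 0 0 = 1 := by
      unfold begins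
      simpa using m1
    rw [this, mul_one]
  · intro i u hi hu
    obtain ⟨a, a', r, q1, q2, q3, q4, q5, q6, q7⟩ := m3 i u hi hu
    refine ⟨a, a', r, q1, q2, q3, q4, q5, ?_, ?_⟩
    · simp only
      calc η * ((k : ℝ) ^ T * begins b k μ i u) = (k : ℝ) ^ T * (η * begins b k μ i u) := by ring
        _ ≤ _ := mul_le_mul_of_nonneg_left q6 hT
    · simp only
      calc η * ((k : ℝ) ^ T * begins b k μ i u) = (k : ℝ) ^ T * (η * begins b k μ i u) := by ring
        _ ≤ _ := mul_le_mul_of_nonneg_left q7 hT

open Classical in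
/-- Let `s ≥ 1`, bases `b i ≥ 2`, factors `κ i ≥ 1` (`i < s`), `L ≥ 1`, `T`, `0 < η ≤ 1`, `A`, `B`, `U` and `ε > 0` be fixed. Let `N`
be large, let the numbers `k i` of digits satisfy `N / B ≤ b i ^ k i ≤ B N`, and let `0 ≤ c i ≤ B N` be arbitrary integers.
Let `v 1, ..., v s` be independent random integers, `v i < b i ^ k i`, with arbitrary exchangeable distributions `p i`. Then,
with a probability of at least `1 - 1 / log ^ U N`, the constants `a i = c i + κ i * v i` have the following property: for
all `j ≤ log ^ A N` and ALL slopes `1 ≤ d 1, ..., d s ≤ j` for which the system is admissible, the formula of Hardy and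
Littlewood holds for the number of the primes `q ≤ N / j` for which all `d i * q + a i` are primes. -/
theorem result (s : ℕ) (hs : 1 ≤ s) (b : Fin s → ℕ) (hb : ∀ i, 2 ≤ b i) (κ : Fin s → ℕ) (hκ : ∀ i, 1 ≤ κ i)
    (L T : ℕ) (hL : 1 ≤ L) (η : ℝ) (hη : 0 < η) (hη1 : η ≤ 1) (A B U : ℕ) (ε : ℝ) (hε : 0 < ε) :
    ∃ N₀ : ℕ, ∀ N, N₀ ≤ N → ∀ k : Fin s → ℕ, (∀ i, b i ^ k i ≤ B * N ∧ N ≤ B * b i ^ k i) →
      ∀ c : Fin s → ℕ, (∀ i, c i ≤ B * N) →
      ∀ p : Fin s → ℕ → ℝ, (∀ i, Exchangeable (b i) L η T (k i) (p i)) →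
        ∑ v ∈ Fintype.piFinset (fun i => range (b i ^ k i)),
          (if AllSlopes ε A U N (fun i => c i + κ i * v i) then 0 else ∏ i, p i (v i)) ≤ 1 / Real.log N ^ U := by
  obtain ⟨V, hV⟩ : ∃ V, V = 2 * (U + 1) + A * (s + 2) + 3 := ⟨_, rfl⟩
  obtain ⟨N1, h1⟩ := Pool.Agent.N699.ST.ws_all s hs
    (fun i => Pool.Agent.N625.DY.Kc (b i) B (Pool.Agent.N625.PT.Flex (b i) L η T)) κ hκ B U A V hV ε hε
    (fun i => Pool.Agent.N625.DY.cls_one (κ i) (Pool.Agent.N625.PT.flex_clsV (b i) L (hb i) hL η hη hη1 T (κ i : ℤ)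
      (by exact_mod_cast (by have := hκ i; omega : κ i ≠ 0))).toCls B B _)
  refine ⟨N1, fun N hN k hk c hc p hp => ?_⟩
  have h := h1 N hN (fun i => range (b i ^ k i)) p
    (fun i => ⟨k i, (hk i).1, (hk i).2, flex_of (hp i), rfl⟩) (fun i v _ => (hp i).nonneg v) c hc
  refine le_trans (le_of_eq ?_) h
  apply sum_congr rfl
  intro v _
  by_cases hH : AllSlopes ε A U N (fun i => c i + κ i * v i)
  · have hH' : ¬ ¬ Pool.Agent.N699.ST.AllS ε A U N (fun i => c i + κ i * v i) := not_not.2 hH
    rw [if_pos hH, if_neg hH']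
  · have hH' : ¬ Pool.Agent.N699.ST.AllS ε A U N (fun i => c i + κ i * v i) := hH
    rw [if_neg hH, if_pos hH']

end Pool.Agent.Results.MP_8bf9c2_nt.ExchangeableBlocks
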