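import Pool.Agent.N699.ST.Tra
import Pool.Agent.N469.PT.Pal

/-!
# Primes `q` for which all `d_i q + a_i` are primes: palindromic constants, all small slopes at the same time

For almost all vectors `(a_1, ..., a_s)` of palindromes (in arbitrary bases; possibly shifted and dilated), and, more
generally, for almost all vectors of integers whose digits depend on their mirror images, the formula of Hardy and
Littlewood holds for the number of the primes `q` for which all the numbers `d_i q + a_i` are primes, for ALL the
slopes `d_i ≤ log ^ A N` at the same time. For `s = 1` this is the number of the primes `q` with `a + q d` prime; the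
pair `(a, d)` is admissible in this case if and only if `gcd (a, d) = 1` and `2 ∣ a d`. There are only about `√N`
palindromes up to `N`, and the constants are as large as the values of `d q`.

Method: for one random constant the sum of `G n * (Λ - λ_z) (n + a)` over `n ≤ N` is small on average for ARBITRARY
coefficients `G` (`Pool.Agent.N469.PT.mirror_one`, by helper469, from the decay of the characteristic function
`Pool.Agent.TH872.Mir.char_decay` of the starting files); with coefficients supported on the multiples of `d` this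
replaces the von Mangoldt function by the sieve model along the progression `d q + a`, uniformly in `d`. The main term
is evaluated uniformly in the slopes (`Pool.Agent.Y820.LF`, starting files).
-/

set_option autoImplicit false

namespace Pool.Agent.Results.MP_8bf9c2_nt.PalindromicConstants

open Finset

/-- For every prime `p` there is an `r` such that `p` divides neither `r` nor any `d i * r + a i`. -/
def Admissible {s : ℕ} (d a : Fin s → ℕ) : Prop := ∀ p : ℕ, p.Prime → ∃ r : ℕ, ¬ p ∣ r ∧ ∀ i, ¬ p ∣ d i * r + a i

/-- The number of the residues `r < p` for which `p` divides `r * ∏ i, (d i * r + a i)`. -/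
def nu {s : ℕ} (d a : Fin s → ℕ) (p : ℕ) : ℕ := ((range p).filter fun r => p ∣ r * ∏ i, (d i * r + a i)).card

/-- The partial product over the primes `p ≤ z` of the singular series. -/
noncomputable def sing {s : ℕ} (d a : Fin s → ℕ) (z : ℕ) : ℝ :=
  ∏ p ∈ (Icc 1 z).filter Nat.Prime, (1 - (nu d a p : ℝ) / p) / (1 - 1 / (p : ℝ)) ^ (s + 1)

/-- The number of the primes `q ≤ x` for which all `d i * q + a i` are primes. -/
def count {s : ℕ} (d a : Fin s → ℕ) (x : ℕ) : ℕ := ((Icc 1 x).filter fun q => q.Prime ∧ ∀ i, (d i * q + a i).Prime).card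

/-- The formula of Hardy and Littlewood for the primes `q ≤ x` with all `d i * q + a i` prime, where `log N` is the
approximate size of the logarithms of the primes: the singular series converges to some `S > 0`, the number of the
solutions weighted with the von Mangoldt function is `S x`, with an error of at most `x / log ^ U N`, and the number of
the solutions is `S x / log ^ (s + 1) N`, with a relative error of at most `ε`. -/
def Formula {s : ℕ} (ε : ℝ) (U N x : ℕ) (d a : Fin s → ℕ) : Prop :=
  ∃ S : ℝ, 0 < S ∧ Filter.Tendsto (sing d a) Filter.atTop (nhds S) ∧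
    |∑ n ∈ Icc 1 x, ArithmeticFunction.vonMangoldt n * ∏ i, ArithmeticFunction.vonMangoldt (d i * n + a i) - S * x| ≤
      x / Real.log N ^ U ∧
    |(count d a x : ℝ) - S * (x / Real.log N ^ (s + 1))| ≤ ε * (S * (x / Real.log N ^ (s + 1)))

/-- The formula holds for the constants `a`, for all `j ≤ log ^ A N`, for ALL admissible slopes `d i ≤ j`, and for the
primes `q ≤ N / j`. -/
def AllSlopes {s : ℕ} (ε : ℝ) (A U N : ℕ) (a : Fin s → ℕ) : Prop :=
  ∀ (j : ℕ) (d : Fin s → ℕ), (j : ℝ) ≤ Real.log N ^ A → (∀ i, 1 ≤ d i ∧ d i ≤ j) → Admissible d a →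
    Formula ε U N (N / j) d a

open Classical in
/-- The palindromes with exactly `k` digits in base `b`: the integers `v` with `b ^ (k - 1) ≤ v < b ^ k`, whose digit
number `j` (which is `v / b ^ j % b`) is equal to the digit number `k - 1 - j`, for all `j < k`. -/
noncomputable def palindromes (b k : ℕ) : Finset ℕ :=
  (range (b ^ k)).filter fun v => b ^ (k - 1) ≤ v ∧ ∀ j < k, v / b ^ j % b = v / b ^ (k - 1 - j) % b

/-- The numbers `w j a`, `j < k / 2`, are distributions of a pair `a` of digits in base `b`, and, for
`j ≥ 1`, two independent copies of the pair differ in BOTH digits with a probability of at least `η`. -/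
structure Pairs (b k : ℕ) (η : ℝ) (w : ℕ → ℕ × ℕ → ℝ) : Prop where
  nonneg : ∀ j < k / 2, ∀ a, 0 ≤ w j a
  sum : ∀ j < k / 2, ∑ a ∈ range b ×ˢ range b, w j a = 1
  differ : ∀ j < k / 2, 1 ≤ j → η ≤ ∑ a ∈ range b ×ˢ range b, ∑ a' ∈ range b ×ˢ range b,
    if a.1 ≠ a'.1 ∧ a.2 ≠ a'.2 then w j a * w j a' else 0

/-- The probability of the integer `v < b ^ k`, if for `j < k / 2` the pair formed by its digits number `j` and `k - 1 - j`
in base `b` is equal to `a` with probability `w j a`, if, for odd `k`, its middle digit is equal to `a` with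
probability `u a`, and if the pairs and the middle digit are independent of each other. -/
noncomputable def weight (b k : ℕ) (w : ℕ → ℕ × ℕ → ℝ) (u : ℕ → ℝ) (v : ℕ) : ℝ :=
  (∏ j ∈ range (k / 2), w j (v / b ^ j % b, v / b ^ (k - 1 - j) % b)) * (if k % 2 = 1 then u (v / b ^ (k / 2) % b) else 1)

open Classical in
/-- Let `s ≥ 1`, bases `b i ≥ 2`, factors `κ i ≥ 1` (`i < s`), `A`, `B`, `U`, `η > 0` and `ε > 0` be fixed. Let `N` be
large, let the numbers `k i` of digits satisfy `N / B ≤ b i ^ k i ≤ B N`, and let `0 ≤ c i ≤ B N` be arbitrary integers.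

(1) Let `v 1, ..., v s` be independent random integers, `v i < b i ^ k i`, such that the pairs formed by the digits
number `j` and `k i - 1 - j` of `v i` in base `b i` are independent of each other for different `j`. Inside of a pair the
digits may depend on each other in an arbitrary way; the distributions of the pairs are arbitrary, only two
independent copies of a pair (with `j ≥ 1`) should differ in both digits with a probability of at least `η`. Then, with a
probability of at least `1 - 1 / log ^ U N`, the constants `a i = c i + κ i * v i` have the following property: for all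
`j ≤ log ^ A N` and ALL slopes `1 ≤ d 1, ..., d s ≤ j` for which the system is admissible, the formula of Hardy and
Littlewood holds for the number of the primes `q ≤ N / j` for which all `d i * q + a i` are primes.

(2) In particular this holds for all the vectors `(v 1, ..., v s)`, where `v i` is a palindrome with exactly `k i` digits
in base `b i`, with the exception of a proportion of at most `1 / log ^ U N` of these vectors. -/
theorem result (s : ℕ) (hs : 1 ≤ s) (b : Fin s → ℕ) (hb : ∀ i, 2 ≤ b i) (κ : Fin s → ℕ) (hκ : ∀ i, 1 ≤ κ i)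
    (A B U : ℕ) (η ε : ℝ) (hη : 0 < η) (hε : 0 < ε) :
    ∃ N₀ : ℕ, ∀ N, N₀ ≤ N → ∀ k : Fin s → ℕ, (∀ i, b i ^ k i ≤ B * N ∧ N ≤ B * b i ^ k i) →
      ∀ c : Fin s → ℕ, (∀ i, c i ≤ B * N) →
      (∀ (w : Fin s → ℕ → ℕ × ℕ → ℝ) (u : Fin s → ℕ → ℝ), (∀ i, Pairs (b i) (k i) η (w i)) → (∀ i a, 0 ≤ u i a) →
        (∀ i, ∑ a ∈ range (b i), u i a = 1) →
        ∑ v ∈ Fintype.piFinset (fun i => range (b i ^ k i)),
          (if AllSlopes ε A U N (fun i => c i + κ i * v i) then 0 else ∏ i, weight (b i) (k i) (w i) (u i) (v i)) ≤
            1 / Real.log N ^ U) ∧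
      (((Fintype.piFinset fun i => palindromes (b i) (k i)).filter fun v =>
        ¬ AllSlopes ε A U N (fun i => c i + κ i * v i)).card : ℝ) ≤
        ((Fintype.piFinset fun i => palindromes (b i) (k i)).card : ℝ) / Real.log N ^ U := by
  have hb0 : ∀ i, (0 : ℝ) < b i := fun i => by exact_mod_cast (by have := hb i; omega : 0 < b i)
  obtain ⟨V, hV⟩ : ∃ V, V = 2 * (U + 1) + A * (s + 2) + 3 := ⟨_, rfl⟩
  obtain ⟨N1, h1⟩ := Pool.Agent.N699.ST.ws_all s hs (fun i => Pool.Agent.N469.PT.Mc (b i) B η) κ hκ B U A V hV ε hε
    (fun i => Pool.Agent.N469.PT.mirror_one (b i) B (hb i) η hη (κ i) (hκ i) B _)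
  obtain ⟨N2, h2⟩ := Pool.Agent.N699.ST.ws_all s hs (fun i => Pool.Agent.N469.PT.Mc (b i) B (1 / (b i : ℝ) ^ 2)) κ hκ B U A V hV ε hε
    (fun i => Pool.Agent.N469.PT.mirror_one (b i) B (hb i) (1 / (b i : ℝ) ^ 2) (by have := hb0 i; positivity) (κ i) (hκ i) B _)
  obtain ⟨Q, hQ⟩ : ∃ Q, Q = B * ∑ i, b i := ⟨_, rfl⟩
  refine ⟨N1 + N2 + Q + 1, fun N hN k hk c hc => ⟨?_, ?_⟩⟩
  · intro w u hw hu0 hu1
    have hnn : ∀ i, ∀ v ∈ range (b i ^ k i), 0 ≤ weight (b i) (k i) (w i) (u i) v := by
      intro i v _
      unfold weight
      apply mul_nonneg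
      · exact prod_nonneg fun j hj => (hw i).nonneg j (mem_range.1 hj) _
      · split_ifs
        · exact hu0 i _
        · norm_num
    have h := h1 N (by omega) (fun i => range (b i ^ k i)) (fun i => weight (b i) (k i) (w i) (u i))
      (fun i => ⟨k i, w i, u i, (hk i).1, (hk i).2, ⟨(hw i).nonneg, (hw i).sum, (hw i).differ⟩, hu0 i, hu1 i, rfl, rfl⟩) hnn c hc
    refine le_trans (le_of_eq ?_) h
    apply sum_congr rfl
    intro v _
    by_cases hH : AllSlopes ε A U N (fun i => c i + κ i * v i)
    · have hH' : ¬ ¬ Pool.Agent.N699.ST.AllS ε A U N (fun i => c i + κ i * v i) := not_not.2 hH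
      rw [if_pos hH, if_neg hH']
    · have hH' : ¬ Pool.Agent.N699.ST.AllS ε A U N (fun i => c i + κ i * v i) := hH
      rw [if_neg hH, if_pos hH']
  · have hk2 : ∀ i, 2 ≤ k i := by
      intro i
      by_contra hcon
      have h3 : b i ^ k i ≤ b i ^ 1 := Nat.pow_le_pow_right (by have := hb i; omega) (by omega)
      rw [pow_one] at h3
      have h4 : B * b i ^ k i ≤ B * ∑ i, b i := Nat.mul_le_mul_left _ (h3.trans (single_le_sum (fun _ _ => Nat.zero_le _) (mem_univ i)))
      have := (hk i).2
      omega
    have hw0 : ∀ i, Pool.Agent.TH872.Mir.Mirr (b i) (k i / 2) (1 / (b i : ℝ) ^ 2) (Pool.Agent.TH872.Mir.w0 (b i)) := fun i =>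
      Pool.Agent.TH872.Mir.w0_mirr (b i) (k i / 2) (hb i)
    have hnn : ∀ i, ∀ v ∈ range (b i ^ k i),
        0 ≤ Pool.Agent.N469.PT.weight (b i) (k i) (Pool.Agent.TH872.Mir.w0 (b i)) (fun _ => 1 / (b i : ℝ)) v := by
      intro i v _
      unfold Pool.Agent.N469.PT.weight
      apply mul_nonneg
      · exact prod_nonneg fun j hj => (hw0 i).nonneg j (mem_range.1 hj) _
      · split_ifs
        · have := hb0 i
          positivity
        · norm_num
    have h := h2 N (by omega) (fun i => range (b i ^ k i))
      (fun i => Pool.Agent.N469.PT.weight (b i) (k i) (Pool.Agent.TH872.Mir.w0 (b i)) (fun _ => 1 / (b i : ℝ)))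
      (fun i => ⟨k i, _, _, (hk i).1, (hk i).2, hw0 i,
        fun _ => by have := hb0 i; positivity, by rw [sum_const, card_range, nsmul_eq_mul, mul_one_div, div_self (hb0 i).ne'], rfl, rfl⟩) hnn c hc
    have h5 := Pool.Agent.N469.PT.pals_count s b k hb hk2 (fun v => ¬ AllSlopes ε A U N (fun i => c i + κ i * v i))
      (1 / Real.log N ^ U) (by
        refine le_trans (le_of_eq ?_) h
        apply sum_congr rfl
        intro v _
        by_cases hH : AllSlopes ε A U N (fun i => c i + κ i * v i)
        · have hH' : ¬ ¬ Pool.Agent.N699.ST.AllS ε A U N (fun i => c i + κ i * v i) := not_not.2 hH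
          rw [if_neg (not_not.2 hH), if_neg hH']
        · have hH' : ¬ Pool.Agent.N699.ST.AllS ε A U N (fun i => c i + κ i * v i) := hH
          rw [if_pos hH, if_pos hH'])
    have h6 : ∀ i, palindromes (b i) (k i) = Pool.Agent.TH872.Mir.Pals (b i) (k i) := by
      intro i
      ext v
      unfold palindromes Pool.Agent.TH872.Mir.Pals
      rw [mem_filter, mem_filter, mem_range]
      unfold Pool.Agent.TH872.Mir.IsPal
      exact ⟨fun h => ⟨h.1, h.2.1, h.1, h.2.2⟩, fun h => ⟨h.1, h.2.1, h.2.2.2⟩⟩
    simp only [h6]
    rw [mul_one_div] at h5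
    convert h5

end Pool.Agent.Results.MP_8bf9c2_nt.PalindromicConstants
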