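import Mathlib
import Pool.Agent.N679.SD.Str
import Pool.Agent.N679.SD.Glu
import Pool.Agent.N679.SD.Kn

/-!
# Differences of primes for almost all multiples of some `N`, or `5/9` of the constant terms for every slope

One of the following two statements holds.

1. There are `N`, `B`, `δ > 0` and `C` such that for EVERY interval of length `H` and every large `x` all but
   `C H ^ (1 - δ)` of the multiples `a` of `N` in the interval have at least `x / (log x) ^ B` primes `q ≤ x` for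
   which `a + q` is prime.
2. For every `ε > 0` there is a `B` such that for every slope `d`, every residue class and every sufficiently long
   interval at least `5/9 - ε` of the `a` of the class in the interval with `gcd (a, d) = 1`, `2 ∣ a d` are such that
   `a + q d` is prime for infinitely many primes `q`, at least `x / (log x) ^ B` primes `q ≤ x` for arbitrarily
   large `x`.

The coloured Maynard-Tao theorem with the constant `18/5` (`Pool.Agent.Y827.RO.lamRD`) is from the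
starting files.
-/

set_option autoImplicit false

namespace Pool.Agent.Results.MP_8bf9c2_nt.PolignacOrFiveNinths

open Finset Filter

/-- the hypotheses of the question on the pair `(a, d)` -/
def Adm (a d : ℤ) : Prop := Int.gcd a d = 1 ∧ 2 ∣ a * d

/-- the number of the primes `q ≤ x` for which `a + q d` is prime -/
noncomputable def count (a d : ℤ) (x : ℕ) : ℕ :=
  {q : ℕ | q ≤ x ∧ q.Prime ∧ ∃ p : ℕ, p.Prime ∧ a + q * d = p}.ncard

/-- the pair `(a, d)` satisfies the hypotheses and the conclusion of the question; moreover, there are arbitrarily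
large `x` with at least `x / (log x) ^ B` primes `q ≤ x` for which `a + q d` is prime -/
def Good (B : ℕ) (a d : ℤ) : Prop :=
  Adm a d ∧ {q : ℕ | q.Prime ∧ ∃ p : ℕ, p.Prime ∧ a + q * d = p}.Infinite ∧
    ∃ᶠ x : ℕ in atTop, (x : ℝ) / (Real.log x) ^ B ≤ (count a d x : ℝ)

theorem good_of_oft {B : ℕ} {a d : ℤ} (h : Pool.Agent.N679.PD.Oft B a d) : Good B a d :=
  ⟨h.1, Pool.Agent.R493.OT.infinite_of_freq (B := B) h.2, h.2⟩

open Classical in
theorem result :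
    -- the slope 1
    (∃ N B : ℕ, 1 ≤ N ∧ ∃ δ C : ℝ, 0 < δ ∧ ∀ (A : ℤ) (H : ℕ), 1 ≤ H → ∀ᶠ x : ℕ in atTop,
      (((Ioc A (A + H)).filter (fun a : ℤ =>
        (N : ℤ) ∣ a ∧ (count a 1 x : ℝ) < (x : ℝ) / (Real.log x) ^ B)).card : ℝ) ≤ C * (H : ℝ) ^ (1 - δ)) ∨
    -- all slopes
    (∀ ε : ℝ, 0 < ε → ∃ B : ℕ, ∀ d N : ℕ, 1 ≤ d → 1 ≤ N → ∀ r : ℤ, ∃ L : ℕ, ∀ (A : ℤ) (H : ℕ), L ≤ H →
      (5 / 9 - ε) * (((Ioc A (A + H)).filter (fun a : ℤ => (N : ℤ) ∣ a - r ∧ Adm a d)).card : ℝ) ≤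
        (((Ioc A (A + H)).filter (fun a : ℤ => (N : ℤ) ∣ a - r ∧ Good B a d)).card : ℝ)) := by
  by_cases h1 : ∃ N B : ℕ, 1 ≤ N ∧ ∃ δ C : ℝ, 0 < δ ∧ ∀ (A : ℤ) (H : ℕ), 1 ≤ H → ∀ᶠ x : ℕ in atTop,
      (((Ioc A (A + H)).filter (fun a : ℤ =>
        (N : ℤ) ∣ a ∧ (count a 1 x : ℝ) < (x : ℝ) / (Real.log x) ^ B)).card : ℝ) ≤ C * (H : ℝ) ^ (1 - δ)
  · exact Or.inl h1
  right
  push Not at h1
  intro ε hε
  obtain ⟨ε', hε'0, hε'1, hε'2⟩ : ∃ ε' : ℝ, 0 < ε' ∧ ε' ≤ 1 / 40 ∧ ε' ≤ ε :=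
    ⟨min ε (1 / 40), lt_min hε (by norm_num), min_le_right _ _, min_le_left _ _⟩
  obtain ⟨n₀, hn₀⟩ := Pool.Agent.N679.SD.str Pool.Agent.N679.SD.s_kn ε' hε'0 hε'1
  set n : ℕ := max n₀ 1 with hn
  have hn1 : 1 ≤ n := le_max_right _ _
  obtain ⟨K, hK, hmany⟩ := Pool.Agent.N679.SD.many n hn1
  refine ⟨4 * n * K + 3, fun d N₀ hd hN₀ r => ?_⟩
  by_contra hcon
  push Not at hcon
  set N : ℕ := N₀ * (2 * (4 * n * K).factorial * d) with hN
  have hfac : 0 < (4 * n * K).factorial := Nat.factorial_pos _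
  have hN1 : 1 ≤ N := by
    rw [hN]
    have : 0 < N₀ * (2 * (4 * n * K).factorial * d) := by positivity
    exact this
  have h2 : 2 ∣ N := ⟨N₀ * ((4 * n * K).factorial * d), by rw [hN]; ring⟩
  have hdN : d ∣ N := ⟨N₀ * (2 * (4 * n * K).factorial), by rw [hN]; ring⟩
  have hNN : N₀ ∣ N := Dvd.intro _ rfl
  have hNp : ∀ p : ℕ, p.Prime → p ≤ 4 * n * K → p ∣ N := by
    intro p hp hle
    refine ((Nat.Prime.dvd_factorial hp).2 hle).trans ⟨N₀ * (2 * d), ?_⟩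
    rw [hN]; ring
  obtain ⟨α, hα0, hα1, hα, hU⟩ := Pool.Agent.N679.SD.dens (d := d) (N := N) (N₀ := N₀) hN1 h2 hdN hNN r
    (fun a => Good (4 * n * K + 3) a d) (fun a h => h.1) (4 / 9 + ε') (by
      intro L
      obtain ⟨A, H, hLH, h⟩ := hcon L
      refine ⟨A, H, hLH, h.trans_le ?_⟩
      exact mul_le_mul_of_nonneg_right (by linarith) (Nat.cast_nonneg _))
  obtain ⟨q, K', hq, hK', hstr⟩ := hn₀ n (le_max_left _ _) d hd {s : ℤ | ¬ Good (4 * n * K + 3) (α + N * s) d} hU K hK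
  -- the differences
  obtain ⟨C, hC⟩ := Pool.Agent.N679.SD.rect K' hK'
  have hK'0 : (0 : ℝ) < K' := by exact_mod_cast hK'
  obtain ⟨A, H, hH, hfr⟩ := h1 (N * q) (4 * n * K + 3) (Nat.mul_pos hN1 hq) (1 / (K' : ℝ)) C (by positivity)
  set F : ℕ → Finset ℤ := fun x => (Ioc A (A + H)).filter (fun a : ℤ =>
        ((N * q : ℕ) : ℤ) ∣ a ∧ (count a 1 x : ℝ) < (x : ℝ) / (Real.log x) ^ (4 * n * K + 3)) with hF
  obtain ⟨S, hS⟩ := Pool.Agent.N679.PD.freq_exists (ι := {S // S ∈ (Ioc A (A + H)).powerset})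
    (P := fun S x => F x = S.1 ∧ C * (H : ℝ) ^ (1 - 1 / (K' : ℝ)) < ((F x).card : ℝ)) (by
      refine hfr.mono fun x hx => ?_
      exact ⟨⟨F x, mem_powerset.2 (filter_subset _ _)⟩, rfl, hx⟩)
  obtain ⟨x₀, hx₀⟩ := hS.exists
  obtain ⟨l, l', hl, hl', hll⟩ := hC N q h2 hN1 hq A H hH (F x₀) (filter_subset _ _)
    (fun a ha => (mem_filter.1 ha).2.1) hx₀.2
  obtain ⟨X, Z, hX, hZ, hXZ, hXV, hZV, hSS⟩ := hstr {s : ℤ | (N : ℤ) * s ∈ F x₀} ⟨l, l', hl, hl', hll⟩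
  refine Pool.Agent.N679.SD.glue hmany hd hN1 h2 hNp hdN hα0 hα1 hα X Z hX hZ hXZ
    (hS.mono fun x hx => ⟨fun i k k' => ?_, fun i k k' => ?_⟩) (fun S S' hd hd' hc => ?_)
  · have h3 : (N : ℤ) * (X true i k' - X false i k) ∈ F x := by
      rw [hx.1, ← hx₀.1]
      exact hXV i k k'
    exact (mem_filter.1 h3).2.2
  · have h3 : (N : ℤ) * (Z true i k' - Z false i k) ∈ F x := by
      rw [hx.1, ← hx₀.1]
      exact hZV i k k'
    exact (mem_filter.1 h3).2.2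
  · obtain ⟨a, b, i, hi, j, hj, h⟩ := hSS S S' hd hd' hc
    exact ⟨a, b, i, hi, j, hj, fun k k' h3 => h k k' (good_of_oft h3)⟩

end Pool.Agent.Results.MP_8bf9c2_nt.PolignacOrFiveNinths
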